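import Pool.Agent.Helper53.PT.GoalsB

/-!
# MP_705522_gt, part B, packet TP: power decay beyond `x = 64`
-/

namespace Pool.Agent.Helper31.PT

open MeasureTheory Set Filter Topology
open Pool.Agent.Helper53.PT

theorem rpow_scale {r t s e h : ℝ} (hr : 0 < r) (ht : 0 < t) (hs : 0 < s) (hs1 : s ≤ 1)
    (hrs : r = s ^ (-(1 / 2 : ℝ))) (he : h ≤ e / 2) :
    (r * t) ^ (-e) ≤ t ^ (-e) * s ^ h := by
  rw [Real.mul_rpow hr.le ht.le, mul_comm (r ^ (-e))]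
  refine mul_le_mul_of_nonneg_left ?_ (Real.rpow_nonneg ht.le _)
  rw [hrs, ← Real.rpow_mul hs.le]
  apply Real.rpow_le_rpow_of_exponent_ge hs hs1
  linarith

theorem th_facts {θ : ℝ} (h0 : 1 / 4 ≤ θ) (h1 : θ < 1 / 2) (k : ℕ) :
    0 < Real.Gamma (1 / θ - 1 + k) ∧ 0 < Real.Gamma (2 / θ - 1 + k) ∧
    0 < Real.sin (Real.pi * θ / 2) ∧ 0 < Nn θ ∧ 2 < 1 / θ := by
  have hθ : 0 < θ := by linarith
  have h2 : 2 < 1 / θ := by
    rw [lt_div_iff₀ hθ]; linarith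
  have h3 : 2 / θ = 2 * (1 / θ) := by ring
  have hk : (0 : ℝ) ≤ k := Nat.cast_nonneg k
  refine ⟨Real.Gamma_pos_of_pos (by linarith), Real.Gamma_pos_of_pos (by rw [h3]; linarith), ?_, ?_, h2⟩
  · apply Real.sin_pos_of_pos_of_lt_pi
    · have := Real.pi_pos; positivity
    · have := Real.pi_pos
      nlinarith
  · unfold Nn
    exact mul_pos hθ (Real.Gamma_pos_of_pos (by linarith))

theorem AA_nonneg {θ : ℝ} (h0 : 1 / 4 ≤ θ) (h1 : θ < 1 / 2) (k : ℕ) {t : ℝ} (ht : 0 < t) :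
    0 ≤ AA θ k t := by
  obtain ⟨a, b, c, d, _⟩ := th_facts h0 h1 k
  unfold AA
  refine div_nonneg ?_ d.le
  refine add_nonneg (mul_nonneg (mul_nonneg (abs_nonneg _) a.le) (Real.rpow_nonneg ht.le _))
    (mul_nonneg b.le (Real.rpow_nonneg (mul_pos ht c).le _))

theorem AB_nonneg {θ : ℝ} (h0 : 1 / 4 ≤ θ) (h1 : θ < 1 / 2) (k : ℕ) {t : ℝ} (ht : 0 < t) :
    0 ≤ AB θ k t := by
  obtain ⟨a, b, c, d, _⟩ := th_facts h0 h1 k
  unfold AB
  exact div_nonneg (mul_nonneg a.le (Real.rpow_nonneg (mul_pos ht c).le _)) d.le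

theorem AA_scale {θ : ℝ} (h0 : 1 / 4 ≤ θ) (h1 : θ < 1 / 2) (k : ℕ) {r t s h : ℝ} (hr : 0 < r)
    (ht : 0 < t) (hs : 0 < s) (hs1 : s ≤ 1) (hrs : r = s ^ (-(1 / 2 : ℝ)))
    (he : h ≤ (1 / θ - 1 + k) / 2) : AA θ k (r * t) ≤ AA θ k t * s ^ h := by
  obtain ⟨a, b, c, d, e⟩ := th_facts h0 h1 k
  unfold AA
  rw [div_mul_eq_mul_div]
  apply div_le_div_of_nonneg_right _ d.le
  rw [add_mul]
  apply add_le_add
  · refine (mul_le_mul_of_nonneg_left (rpow_scale hr ht hs hs1 hrs he)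
      (mul_nonneg (abs_nonneg _) a.le)).trans (le_of_eq (by ring))
  · rw [mul_assoc r t]
    refine (mul_le_mul_of_nonneg_left (rpow_scale hr (mul_pos ht c) hs hs1 hrs ?_) b.le).trans
      (le_of_eq (by ring))
    have h3 : 2 / θ = 2 * (1 / θ) := by ring
    rw [h3]; linarith

theorem AB_scale {θ : ℝ} (h0 : 1 / 4 ≤ θ) (h1 : θ < 1 / 2) (k : ℕ) {r t s h : ℝ} (hr : 0 < r)
    (ht : 0 < t) (hs : 0 < s) (hs1 : s ≤ 1) (hrs : r = s ^ (-(1 / 2 : ℝ)))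
    (he : h ≤ (1 / θ - 1 + k) / 2) : AB θ k (r * t) ≤ AB θ k t * s ^ h := by
  obtain ⟨a, b, c, d, e⟩ := th_facts h0 h1 k
  unfold AB
  rw [div_mul_eq_mul_div]
  apply div_le_div_of_nonneg_right _ d.le
  rw [mul_assoc r t]
  exact (mul_le_mul_of_nonneg_left (rpow_scale hr (mul_pos ht c) hs hs1 hrs he) a.le).trans
    (le_of_eq (by ring))

/-- the first factor of the bound of `f1` -/
theorem one_step {A A0 t0 r s g : ℝ} (ht0 : 0 < t0) (hs : 0 < s)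
    (hrs : r = s ^ (-(1 / 2 : ℝ))) (hA : A ≤ A0 * s ^ (g + 1 / 2)) {x : ℝ} (hx : x = 64 / s) :
    A * (r * t0) / x ≤ A0 * t0 / 64 * s ^ (g + 1) := by
  have e1 : A * (r * t0) / x = A * (t0 / 64 * s ^ (1 / 2 : ℝ)) := by
    rw [hx, hrs]
    have : s ^ (1 / 2 : ℝ) = s ^ (-(1 / 2 : ℝ)) * s := by
      conv_rhs => rw [← Real.rpow_one s, ← Real.rpow_mul hs.le, ← Real.rpow_add hs]
      norm_num
    rw [this]
    field_simp
  have e2 : s ^ (g + 1) = s ^ (g + 1 / 2) * s ^ (1 / 2 : ℝ) := by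
    rw [← Real.rpow_add hs]; ring_nf
  rw [e1, e2]
  have h3 : 0 ≤ t0 / 64 * s ^ (1 / 2 : ℝ) := by positivity
  calc A * (t0 / 64 * s ^ (1 / 2 : ℝ)) ≤ A0 * s ^ (g + 1 / 2) * (t0 / 64 * s ^ (1 / 2 : ℝ)) :=
        mul_le_mul_of_nonneg_right hA h3
    _ = A0 * t0 / 64 * (s ^ (g + 1 / 2) * s ^ (1 / 2 : ℝ)) := by ring

theorem two_step {A A0 B B0 t0 r s g : ℝ} (hB0 : 0 ≤ B0) (ht0 : 0 < t0) (hs : 0 < s)
    (hr : 1 ≤ r) (hrs : r = s ^ (-(1 / 2 : ℝ))) (hA : A ≤ A0 * s ^ g) (hB : B ≤ B0 * s ^ g)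
    {x : ℝ} (hx : x = 64 / s) :
    (A + B / (r * t0)) * (r * t0) ^ 2 / (2 * x ^ 2) ≤
      (A0 + B0 / t0) * t0 ^ 2 / (2 * 64 ^ 2) * s ^ (g + 1) := by
  have hr0 : 0 < r := by linarith
  have hr2 : r ^ 2 * s = 1 := by
    rw [hrs, ← Real.rpow_natCast, ← Real.rpow_mul hs.le]
    norm_num
    rw [Real.rpow_neg_one]
    exact inv_mul_cancel₀ hs.ne'
  have e1 : (A + B / (r * t0)) * (r * t0) ^ 2 / (2 * x ^ 2) =
      (A + B / (r * t0)) * (t0 ^ 2 / (2 * 64 ^ 2) * s) := by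
    rw [hx]
    have : (r * t0) ^ 2 / (2 * (64 / s) ^ 2) = t0 ^ 2 / (2 * 64 ^ 2) * s := by
      have : (r * t0) ^ 2 / (2 * (64 / s) ^ 2) = t0 ^ 2 / (2 * 64 ^ 2) * (r ^ 2 * s) * s := by
        field_simp
      rw [this, hr2, mul_one]
    rw [mul_div_assoc, this]
  have e2 : s ^ (g + 1) = s ^ g * s := by rw [Real.rpow_add hs, Real.rpow_one]
  have h3 : 0 ≤ t0 ^ 2 / (2 * 64 ^ 2) * s := by positivity
  have hsg : 0 < s ^ g := Real.rpow_pos_of_pos hs g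
  have h4 : B / (r * t0) ≤ B0 / t0 * s ^ g := by
    have h5 : B / (r * t0) ≤ B0 * s ^ g / (r * t0) := by
      apply div_le_div_of_nonneg_right hB; positivity
    have h6 : B0 * s ^ g / (r * t0) ≤ B0 * s ^ g / t0 := by
      apply div_le_div_of_nonneg_left (mul_nonneg hB0 hsg.le) ht0
      nlinarith
    calc B / (r * t0) ≤ B0 * s ^ g / t0 := h5.trans h6
      _ = B0 / t0 * s ^ g := by ring
  rw [e1, e2]
  calc (A + B / (r * t0)) * (t0 ^ 2 / (2 * 64 ^ 2) * s)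
      ≤ (A0 * s ^ g + B0 / t0 * s ^ g) * (t0 ^ 2 / (2 * 64 ^ 2) * s) :=
        mul_le_mul_of_nonneg_right (add_le_add hA h4) h3
    _ = (A0 + B0 / t0) * t0 ^ 2 / (2 * 64 ^ 2) * (s ^ g * s) := by ring

theorem gTP : GTP := by
  intro θ h0 h1 g hg x hx
  have hx0 : 0 < x := by linarith
  obtain ⟨_, _, _, _, hθ⟩ := th_facts h0 h1 0
  have hs : (0 : ℝ) < 64 / x := by positivity
  have hs1 : 64 / x ≤ 1 := by rw [div_le_one hx0]; exact hx
  have hG1 : 0 < Real.Gamma (1 - θ) := Real.Gamma_pos_of_pos (by linarith)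
  have hG2 : 0 < Real.Gamma (1 + θ) := Real.Gamma_pos_of_pos (by linarith)
  have ht0 : 0 < tk θ 64 := by unfold tk; positivity
  set s := 64 / x with hsdef
  set r := s ^ (-(1 / 2 : ℝ)) with hr
  have hxs : x = 64 / s := by rw [hsdef]; field_simp
  have hr1 : 1 ≤ r := by
    rw [hr]
    exact Real.one_le_rpow_of_pos_of_le_one_of_nonpos hs hs1 (by norm_num)
  have hr0 : 0 < r := by linarith
  have hr2 : r ^ 2 = x / 64 := by
    rw [hr, ← Real.rpow_natCast, ← Real.rpow_mul hs.le]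
    norm_num
    rw [Real.rpow_neg_one, hsdef, inv_div]
  have htk : tk θ x = r * tk θ 64 := by
    unfold tk
    have : x * Real.Gamma (1 - θ) / Real.Gamma (1 + θ) =
        r ^ 2 * (64 * Real.Gamma (1 - θ) / Real.Gamma (1 + θ)) := by
      rw [hr2]; ring
    rw [this, Real.sqrt_mul (by positivity), Real.sqrt_sq hr0.le]
  obtain ⟨b1, b2, b3, b4, b5, b6⟩ := aTAIL h0 h1 hx0
  rw [htk] at b1 b2 b3 b4 b5 b6
  refine ⟨b1.trans (AA_scale h0 h1 0 hr0 ht0 hs hs1 hr (by push_cast; linarith)),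
    b2.trans (AB_scale h0 h1 0 hr0 ht0 hs hs1 hr (by push_cast; linarith)),
    b3.trans (one_step ht0 hs hr
      (AA_scale h0 h1 1 hr0 ht0 hs hs1 hr (by push_cast; linarith)) hxs),
    b4.trans (one_step ht0 hs hr
      (AB_scale h0 h1 1 hr0 ht0 hs hs1 hr (by push_cast; linarith)) hxs),
    b5.trans (two_step (AA_nonneg h0 h1 1 ht0) ht0 hs hr1 hr
      (AA_scale h0 h1 2 hr0 ht0 hs hs1 hr (by push_cast; linarith))
      (AA_scale h0 h1 1 hr0 ht0 hs hs1 hr (by push_cast; linarith)) hxs),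
    b6.trans (two_step (AB_nonneg h0 h1 1 ht0) ht0 hs hr1 hr
      (AB_scale h0 h1 2 hr0 ht0 hs hs1 hr (by push_cast; linarith))
      (AB_scale h0 h1 1 hr0 ht0 hs hs1 hr (by push_cast; linarith)) hxs)⟩

end Pool.Agent.Helper31.PT
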